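import Mathlib

set_option autoImplicit false

/-!
Counting coprime pairs in a box, from below.
-/

namespace Pool.Agent.W276.Cop

open Finset

/-- the sum of `1/p^2` over the primes up to `n` -/
noncomputable def s (n : ℕ) : ℝ := ∑ p ∈ (Finset.range (n+1)).filter Nat.Prime, (1/(p:ℝ)^2)

lemma s_succ_not {n : ℕ} (h : ¬ (n+1).Prime) : s (n+1) = s n := by
  unfold s
  rw [Finset.range_add_one (n := n+1), Finset.filter_insert, if_neg h]

lemma s_succ_le (n : ℕ) : s (n+1) ≤ s n + 1/((n+1:ℕ):ℝ)^2 := by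
  unfold s
  rw [Finset.range_add_one (n := n+1), Finset.filter_insert]
  split_ifs with h
  · rw [Finset.sum_insert (by simp)]
    linarith
  · have : (0:ℝ) ≤ 1/((n+1:ℕ):ℝ)^2 := by positivity
    linarith

lemma s_three : s 3 ≤ 3/8 := by
  have h1 : s 0 = 0 := by
    unfold s
    have : (Finset.range (0+1)).filter Nat.Prime = ∅ := by decide
    rw [this, Finset.sum_empty]
  have h2 : s 1 = 0 := by
    rw [s_succ_not (n := 0) (by norm_num)]; exact h1
  have h3 := s_succ_le 1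
  have h4 := s_succ_le 2
  norm_num at h3 h4
  linarith

lemma s_odd (m : ℕ) (hm : 1 ≤ m) : s (2*m+1) ≤ 1/2 - 1/(4*((m:ℝ)+1)) := by
  induction m, hm using Nat.le_induction with
  | base =>
    have := s_three
    norm_num
    linarith
  | succ m hm ih =>
    have e : 2*(m+1)+1 = (2*m+1)+1+1 := by ring
    rw [e]
    have hnp : ¬ ((2*m+1)+1).Prime := by
      intro h
      have h2 : 2 ∣ (2*m+1)+1 := ⟨m+1, by ring⟩
      have := (Nat.prime_dvd_prime_iff_eq Nat.prime_two h).1 h2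
      omega
    have h1 := s_succ_le ((2*m+1)+1)
    rw [s_succ_not hnp] at h1
    have h2 : 1/((((2*m+1)+1)+1:ℕ):ℝ)^2 ≤ 1/(4*((m:ℝ)+1)) - 1/(4*((m+1:ℕ):ℝ)+4) := by
      push_cast
      have hm' : (0:ℝ) ≤ m := Nat.cast_nonneg m
      have e2 : 1/(4*((m:ℝ)+1)) - 1/(4*((m:ℝ)+1)+4) = 1/(4*((m:ℝ)+1)*((m:ℝ)+2)) := by
        field_simp
        ring
      rw [e2]
      apply one_div_le_one_div_of_le
      · positivity
      · nlinarith
    have e3 : 4*((m+1:ℕ):ℝ)+4 = 4*(((m+1:ℕ):ℝ)+1) := by ring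
    rw [e3] at h2
    linarith

lemma s_mono {a b : ℕ} (h : a ≤ b) : s a ≤ s b := by
  unfold s
  apply Finset.sum_le_sum_of_subset_of_nonneg
  · intro x hx
    simp only [Finset.mem_filter, Finset.mem_range] at hx ⊢
    exact ⟨by omega, hx.2⟩
  · intros; positivity

lemma s_le (n : ℕ) : s n ≤ 1/2 := by
  have h1 : s n ≤ s (2*(n+1)+1) := s_mono (by omega)
  have h2 := s_odd (n+1) (by omega)
  have h3 : (0:ℝ) ≤ 1/(4*(((n+1:ℕ):ℝ)+1)) := by positivity
  linarith

/-- coprime pairs `(a,b)` with `kB < a ≤ 2kB`, `1 ≤ b ≤ B` -/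
def pool (k B : ℕ) : Finset (ℕ × ℕ) :=
  ((Finset.Ioc (k*B) (2*(k*B))) ×ˢ (Finset.Icc 1 B)).filter (fun t => Nat.Coprime t.1 t.2)

/-- multiples of `p` in `(n, 2n]` -/
lemma card_mult_le (n p : ℕ) (hp : 0 < p) :
    ((((Finset.Ioc n (2*n)).filter (fun a => p ∣ a)).card : ℕ) : ℝ) ≤ (n:ℝ)/p + 1 := by
  have h := Nat.Ioc_filter_dvd_card_eq_div
  have hsub : (Finset.Ioc n (2*n)).filter (fun a => p ∣ a) =
      (Finset.Ioc 0 (2*n)).filter (fun a => p ∣ a) \ (Finset.Ioc 0 n).filter (fun a => p ∣ a) := by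
    ext a
    simp only [Finset.mem_filter, Finset.mem_Ioc, Finset.mem_sdiff]
    constructor
    · rintro ⟨⟨h1, h2⟩, h3⟩
      exact ⟨⟨⟨by omega, h2⟩, h3⟩, fun h => by omega⟩
    · rintro ⟨⟨⟨h1, h2⟩, h3⟩, h4⟩
      refine ⟨⟨?_, h2⟩, h3⟩
      by_contra h5
      exact h4 ⟨⟨h1, by omega⟩, h3⟩
  have hs2 : (Finset.Ioc 0 n).filter (fun a => p ∣ a) ⊆ (Finset.Ioc 0 (2*n)).filter (fun a => p ∣ a) := by
    intro a
    simp only [Finset.mem_filter, Finset.mem_Ioc]
    rintro ⟨⟨h1, h2⟩, h3⟩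
    exact ⟨⟨h1, by omega⟩, h3⟩
  rw [hsub, Finset.card_sdiff_of_subset hs2, h, h]
  have h1 : n / p ≤ (2*n)/p := Nat.div_le_div_right (by omega)
  rw [Nat.cast_sub h1]
  have h2 : (((2*n)/p : ℕ):ℝ) ≤ (2*n:ℝ)/p := by
    have := @Nat.cast_div_le ℝ _ _ _ (2*n) p
    push_cast at this
    exact this
  have h3 : (n:ℝ)/p < ((n/p : ℕ):ℝ) + 1 := by
    have := Nat.lt_succ_iff.1 (Nat.lt_succ_self (n/p))
    rw [div_lt_iff₀ (by exact_mod_cast hp)]
    have h4 := Nat.lt_mul_div_succ n hp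
    have h5 : n < (n/p + 1) * p := by rw [mul_comm]; exact h4
    exact_mod_cast h5
  have h4 : (2*n:ℝ)/p = (n:ℝ)/p + (n:ℝ)/p := by ring
  linarith

lemma card_pool (k B : ℕ) (hB : 1 ≤ B) :
    (k:ℝ)*B^2 ≤ 2*((pool k B).card : ℝ) + (B:ℝ)^2 := by
  classical
  set box := (Finset.Ioc (k*B) (2*(k*B))) ×ˢ (Finset.Icc 1 B) with hbox
  have hcard : (box.card : ℝ) = (k:ℝ)*B^2 := by
    rw [hbox, Finset.card_product, Nat.card_Ioc, Nat.card_Icc]
    have : 2*(k*B) - k*B = k*B := by omega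
    rw [this]
    have h2 : B + 1 - 1 = B := by omega
    rw [h2]
    push_cast
    ring
  set P := (Finset.range (B+1)).filter Nat.Prime with hP
  have hsplit : box.card = (pool k B).card +
      (box.filter (fun t => ¬ Nat.Coprime t.1 t.2)).card := by
    rw [pool, Finset.card_filter_add_card_filter_not]
  have hcov : box.filter (fun t => ¬ Nat.Coprime t.1 t.2) ⊆
      P.biUnion (fun p => ((Finset.Ioc (k*B) (2*(k*B))).filter (fun a => p ∣ a)) ×ˢ
        ((Finset.Icc 1 B).filter (fun b => p ∣ b))) := by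
    intro t ht
    simp only [hbox, Finset.mem_filter, Finset.mem_product, Finset.mem_Ioc, Finset.mem_Icc] at ht
    obtain ⟨⟨ha, hb⟩, hnc⟩ := ht
    obtain ⟨p, hp, hpa, hpb⟩ := Nat.Prime.not_coprime_iff_dvd.1 hnc
    simp only [Finset.mem_biUnion, Finset.mem_product, Finset.mem_filter, Finset.mem_Ioc,
      Finset.mem_Icc, hP, Finset.mem_range]
    have : p ≤ t.2 := Nat.le_of_dvd (by omega) hpb
    exact ⟨p, ⟨by omega, hp⟩, ⟨ha, hpa⟩, ⟨hb, hpb⟩⟩
  have h1 : ((box.filter (fun t => ¬ Nat.Coprime t.1 t.2)).card : ℝ) ≤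
      ∑ p ∈ P, (((k*B:ℕ):ℝ)/p + 1) * ((B:ℝ)/p) := by
    have h2 := (Finset.card_le_card hcov).trans Finset.card_biUnion_le
    calc ((box.filter (fun t => ¬ Nat.Coprime t.1 t.2)).card : ℝ)
        ≤ ((∑ p ∈ P, (((Finset.Ioc (k*B) (2*(k*B))).filter (fun a => p ∣ a)) ×ˢ
        ((Finset.Icc 1 B).filter (fun b => p ∣ b))).card : ℕ) : ℝ) := by exact_mod_cast h2
      _ ≤ _ := by
        push_cast
        apply Finset.sum_le_sum
        intro p hp
        have hpp : p.Prime := (Finset.mem_filter.1 hp).2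
        rw [Finset.card_product]
        push_cast
        have h3 := card_mult_le (k*B) p hpp.pos
        have h4 : ((((Finset.Icc 1 B).filter (fun b => p ∣ b)).card : ℕ) : ℝ) ≤ (B:ℝ)/p := by
          have h5 : (Finset.Icc 1 B).filter (fun b => p ∣ b) = (Finset.Ioc 0 B).filter (fun b => p ∣ b) := by
            ext b
            simp only [Finset.mem_filter, Finset.mem_Icc, Finset.mem_Ioc]
            constructor
            · rintro ⟨⟨h1, h2⟩, h3⟩; exact ⟨⟨by omega, h2⟩, h3⟩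
            · rintro ⟨⟨h1, h2⟩, h3⟩; exact ⟨⟨by omega, h2⟩, h3⟩
          rw [h5, Nat.Ioc_filter_dvd_card_eq_div]
          exact Nat.cast_div_le
        push_cast at h3
        apply mul_le_mul h3 h4 (by positivity) (by positivity)
  have h2 : ∑ p ∈ P, (((k*B:ℕ):ℝ)/p + 1) * ((B:ℝ)/p) ≤ (k:ℝ)*B^2/2 + (B:ℝ)^2/2 := by
    have e : ∀ p ∈ P, (((k*B:ℕ):ℝ)/p + 1) * ((B:ℝ)/p) = ((k:ℝ)*B^2) * (1/(p:ℝ)^2) + (B:ℝ) * (1/(p:ℝ)) := by
      intro p hp
      have hpp : p.Prime := (Finset.mem_filter.1 hp).2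
      have : (p:ℝ) ≠ 0 := by exact_mod_cast hpp.ne_zero
      push_cast
      field_simp
    rw [Finset.sum_congr rfl e, Finset.sum_add_distrib, ← Finset.mul_sum, ← Finset.mul_sum]
    have hs : ∑ p ∈ P, (1/(p:ℝ)^2) ≤ 1/2 := s_le B
    have hs2 : ∑ p ∈ P, (1/(p:ℝ)) ≤ (B:ℝ)/2 := by
      calc ∑ p ∈ P, (1/(p:ℝ)) ≤ ∑ p ∈ P, (1/2:ℝ) := by
            apply Finset.sum_le_sum
            intro p hp
            have hpp : p.Prime := (Finset.mem_filter.1 hp).2
            apply one_div_le_one_div_of_le (by norm_num)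
            exact_mod_cast hpp.two_le
        _ = (P.card:ℝ) * (1/2) := by rw [Finset.sum_const, nsmul_eq_mul]
        _ ≤ (B:ℝ)/2 := by
            have : P.card ≤ B := by
              have hsub : P ⊆ Finset.Icc 1 B := by
                intro p hp
                have hpp : p.Prime := (Finset.mem_filter.1 hp).2
                have := (Finset.mem_filter.1 hp).1
                simp only [Finset.mem_range] at this
                simp only [Finset.mem_Icc]
                exact ⟨hpp.one_le, by omega⟩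
              have := Finset.card_le_card hsub
              simpa using this
            have h : (P.card:ℝ) ≤ B := by exact_mod_cast this
            linarith
    have hk : (0:ℝ) ≤ (k:ℝ)*B^2 := by positivity
    have hB0 : (0:ℝ) ≤ B := by positivity
    nlinarith [mul_le_mul_of_nonneg_left hs hk, mul_le_mul_of_nonneg_left hs2 hB0]
  have h3 : (box.card:ℝ) = ((pool k B).card:ℝ) +
      ((box.filter (fun t => ¬ Nat.Coprime t.1 t.2)).card:ℝ) := by exact_mod_cast hsplit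
  rw [hcard] at h3
  linarith

end Pool.Agent.W276.Cop
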