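import Mathlib
import Pool.Agent.W276.Cop

set_option autoImplicit false

/-!
The multiplicative pigeonhole: disjoint sets of fractions with equal products of linear forms.
-/

namespace Pool.Agent.W276.Pig

open Finset Pool.Agent.W276.Cop

/-- two positive integers with prime factors at most `Y` and the same factorization there are equal -/
lemma eq_of_small {Y m n : ℕ} (hm : m ≠ 0) (hn : n ≠ 0)
    (hmY : ∀ p, p.Prime → p ∣ m → p ≤ Y) (hnY : ∀ p, p.Prime → p ∣ n → p ≤ Y)
    (h : ∀ p ∈ (Finset.range (Y+1)).filter Nat.Prime, m.factorization p = n.factorization p) :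
    m = n := by
  apply Nat.eq_of_factorization_eq hm hn
  intro p
  by_cases hp : p.Prime
  · by_cases hpY : p ≤ Y
    · exact h p (Finset.mem_filter.2 ⟨Finset.mem_range.2 (by omega), hp⟩)
    · rw [Nat.factorization_eq_zero_of_not_dvd (fun hd => hpY (hmY p hp hd)),
        Nat.factorization_eq_zero_of_not_dvd (fun hd => hpY (hnY p hp hd))]
  · rw [Nat.factorization_eq_zero_of_not_prime _ hp, Nat.factorization_eq_zero_of_not_prime _ hp]

lemma prime_dvd_prod_le {Y : ℕ} {T : Finset (ℕ × ℕ)} {g : ℕ × ℕ → ℕ}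
    (hg : ∀ t ∈ T, 1 ≤ g t ∧ g t ≤ Y) (p : ℕ) (hp : p.Prime) (h : p ∣ ∏ t ∈ T, g t) : p ≤ Y := by
  obtain ⟨t, ht, hd⟩ := (Prime.dvd_finsetProd_iff hp.prime g).1 h
  exact (Nat.le_of_dvd (hg t ht).1 hd).trans (hg t ht).2

/-- the pigeonhole step -/
theorem pigeon (r Y : ℕ) (g : ℕ → ℕ × ℕ → ℕ) (Om : Finset (ℕ × ℕ))
    (hg : ∀ i < r, ∀ t ∈ Om, 1 ≤ g i t ∧ g i t ≤ Y)
    (hbig : (Om.card + 1) * (Om.card * Y + 1) ^ (r * ((Finset.range (Y+1)).filter Nat.Prime).card)
      < 2 ^ Om.card) :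
    ∃ T T' : Finset (ℕ × ℕ), T ⊆ Om ∧ T' ⊆ Om ∧ Disjoint T T' ∧ T.card = T'.card ∧
      1 ≤ T.card ∧ ∀ i < r, ∏ t ∈ T, g i t = ∏ t ∈ T', g i t := by
  classical
  set P := (Finset.range (Y+1)).filter Nat.Prime with hP
  set N := Om.card with hN
  let φ : Finset (ℕ × ℕ) → ℕ × ((Fin r × {p // p ∈ P}) → ℕ) :=
    fun T => (T.card, fun q => (∏ t ∈ T, g q.1 t).factorization q.2)
  let target : Finset (ℕ × ((Fin r × {p // p ∈ P}) → ℕ)) :=
    (Finset.range (N+1)) ×ˢ (Fintype.piFinset (fun _ => Finset.range (N*Y+1)))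
  have hcard : target.card = (N + 1) * (N * Y + 1) ^ (r * P.card) := by
    simp only [target, Finset.card_product, Finset.card_range, Fintype.card_piFinset,
      Finset.prod_const, Finset.card_univ, Fintype.card_prod, Fintype.card_fin, Fintype.card_coe]
  have hmaps : ∀ T ∈ Om.powerset, φ T ∈ target := by
    intro T hT
    have hTs := Finset.mem_powerset.1 hT
    simp only [φ, target, Finset.mem_product, Finset.mem_range, Fintype.mem_piFinset]
    refine ⟨Nat.lt_succ_of_le (Finset.card_le_card hTs), ?_⟩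
    rintro ⟨i, p⟩
    have hne : ∀ t ∈ T, g i t ≠ 0 := fun t ht => by
      have := (hg i i.2 t (hTs ht)).1
      omega
    rw [Nat.factorization_prod hne, Finsupp.finsetSum_apply]
    have h1 : ∑ t ∈ T, (g i t).factorization p ≤ ∑ t ∈ T, Y := by
      apply Finset.sum_le_sum
      intro t ht
      have h2 := Nat.factorization_lt (p : ℕ) (hne t ht)
      have h3 := (hg i i.2 t (hTs ht)).2
      omega
    rw [Finset.sum_const, smul_eq_mul] at h1
    have h2 : T.card * Y ≤ N * Y := Nat.mul_le_mul_right _ (Finset.card_le_card hTs)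
    simp only at h1 ⊢
    omega
  obtain ⟨A, hA, A', hA', hne, heq⟩ := Finset.exists_ne_map_eq_of_card_lt_of_maps_to
    (s := Om.powerset) (t := target) (by rw [hcard, Finset.card_powerset]; exact hbig) hmaps
  have hAs := Finset.mem_powerset.1 hA
  have hAs' := Finset.mem_powerset.1 hA'
  have hc : A.card = A'.card := congrArg Prod.fst heq
  have hprod : ∀ i < r, ∏ t ∈ A, g i t = ∏ t ∈ A', g i t := by
    intro i hi
    have h0 : ∀ B ⊆ Om, ∏ t ∈ B, g i t ≠ 0 := by
      intro B hB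
      rw [Finset.prod_ne_zero_iff]
      intro t ht
      have := (hg i hi t (hB ht)).1
      omega
    refine eq_of_small (Y := Y) (h0 A hAs) (h0 A' hAs')
      (prime_dvd_prod_le (fun t ht => hg i hi t (hAs ht)))
      (prime_dvd_prod_le (fun t ht => hg i hi t (hAs' ht))) ?_
    intro p hp
    have := congrFun (congrArg Prod.snd heq) (⟨i, hi⟩, ⟨p, hp⟩)
    exact this
  have hcA : (A \ A').card + (A ∩ A').card = A.card := Finset.card_sdiff_add_card_inter A A'
  have hcA' : (A' \ A).card + (A' ∩ A).card = A'.card := Finset.card_sdiff_add_card_inter A' A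
  have hinter : A' ∩ A = A ∩ A' := Finset.inter_comm _ _
  refine ⟨A \ A', A' \ A, Finset.sdiff_subset.trans hAs, Finset.sdiff_subset.trans hAs', ?_, ?_, ?_, ?_⟩
  · exact disjoint_sdiff_sdiff
  · rw [hinter] at hcA'
    omega
  · by_contra hlt
    have h0 : (A \ A').card = 0 := by omega
    have h1 : A \ A' = ∅ := Finset.card_eq_zero.1 h0
    have h2 : A ⊆ A' := Finset.sdiff_eq_empty_iff_subset.1 h1
    exact hne (Finset.eq_of_subset_of_card_le h2 (by omega))
  · intro i hi
    have h1 := hprod i hi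
    rw [← Finset.prod_sdiff (Finset.inter_subset_left : A ∩ A' ⊆ A),
      ← Finset.prod_sdiff (Finset.inter_subset_left : A' ∩ A ⊆ A'), hinter,
      Finset.sdiff_inter_self_left] at h1
    have h2 : A' \ (A ∩ A') = A' \ A := by
      rw [Finset.inter_comm, Finset.sdiff_inter_self_left]
    rw [h2] at h1
    refine Nat.eq_of_mul_eq_mul_right ?_ h1
    apply Finset.prod_pos
    intro t ht
    have := (hg i hi t (hAs (Finset.inter_subset_left ht))).1
    omega

/-- Chebyshev's bound in the form used here -/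
lemma pi_log_le (Y : ℕ) (hY : 2 ≤ Y) :
    (((Finset.range (Y+1)).filter Nat.Prime).card : ℝ) * Real.log Y ≤ 5 * Y := by
  have h1 : (((Finset.range (Y+1)).filter Nat.Prime).card : ℝ) = (Nat.primeCounting Y : ℝ) := by
    rw [Nat.primeCounting, Nat.primeCounting', Nat.count_eq_card_filter_range]
  rw [h1]
  have hY1 : (1:ℝ) < (Y:ℝ) := by exact_mod_cast (by omega : 1 < Y)
  have h2 := Chebyshev.pi_le_log4_mul_div hY1
  rw [Nat.floor_natCast] at h2
  have hlog : 0 < Real.log Y := Real.log_pos hY1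
  have hs : Real.log (Real.sqrt Y) = Real.log Y / 2 := Real.log_sqrt (by positivity)
  rw [hs] at h2
  have h3 : (Nat.primeCounting Y : ℝ) * Real.log Y ≤
      (Real.log 4 * Y / (Real.log Y / 2) + Real.sqrt Y) * Real.log Y :=
    mul_le_mul_of_nonneg_right h2 hlog.le
  have h4 : (Real.log 4 * Y / (Real.log Y / 2) + Real.sqrt Y) * Real.log Y =
      2 * Real.log 4 * Y + Real.sqrt Y * Real.log Y := by
    field_simp
  have h5 : Real.log Y ≤ 2 * Real.sqrt Y := by
    have := Real.log_le_sub_one_of_pos (show (0:ℝ) < Real.sqrt Y by positivity)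
    rw [hs] at this
    linarith
  have h6 : Real.sqrt Y * Real.log Y ≤ 2 * Y := by
    have := mul_le_mul_of_nonneg_left h5 (Real.sqrt_nonneg (Y:ℝ))
    have h7 : Real.sqrt Y * (2 * Real.sqrt Y) = 2 * Y := by
      have := Real.mul_self_sqrt (show (0:ℝ) ≤ (Y:ℝ) by positivity)
      linarith
    linarith
  have h8 : Real.log 4 ≤ 1.3863 := by
    have : Real.log 4 = 2 * Real.log 2 := by
      rw [show (4:ℝ) = 2^2 by norm_num, Real.log_pow]; norm_num
    have := Real.log_two_lt_d9
    linarith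
  have h9 : Real.log 4 * (Y:ℝ) ≤ 1.3863 * Y := mul_le_mul_of_nonneg_right h8 (by positivity)
  linarith

/-- the numerical condition of the pigeonhole -/
lemma numeric (r Y n : ℕ) (hr : 1 ≤ r) (hY : 2 ≤ Y) (hn : n = 40 * r * Y) (hn2 : n ≤ Y^2) :
    (n + 1) * (n * Y + 1) ^ (r * ((Finset.range (Y+1)).filter Nat.Prime).card) < 2 ^ n := by
  by_contra hcon
  push Not at hcon
  set q := ((Finset.range (Y+1)).filter Nat.Prime).card with hq
  have h1 : ((2:ℝ) ^ n) ≤ ((n:ℝ) + 1) * ((n:ℝ) * Y + 1) ^ (r * q) := by exact_mod_cast hcon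
  have hpos : (0:ℝ) < ((n:ℝ) + 1) := by positivity
  have hpos2 : (0:ℝ) < ((n:ℝ) * Y + 1) := by positivity
  have h2 := Real.log_le_log (by positivity) h1
  rw [Real.log_pow, Real.log_mul hpos.ne' (by positivity), Real.log_pow] at h2
  have hYr : (2:ℝ) ≤ Y := by exact_mod_cast hY
  have hn2r : (n:ℝ) ≤ (Y:ℝ)^2 := by exact_mod_cast hn2
  have hlogY : 0 < Real.log Y := Real.log_pos (by linarith)
  have h3 : Real.log ((n:ℝ) + 1) ≤ 3 * Real.log Y := by
    have : (3:ℝ) * Real.log Y = Real.log ((Y:ℝ)^3) := by rw [Real.log_pow]; norm_num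
    rw [this]
    apply Real.log_le_log hpos
    nlinarith
  have h4 : Real.log ((n:ℝ) * Y + 1) ≤ 4 * Real.log Y := by
    have : (4:ℝ) * Real.log Y = Real.log ((Y:ℝ)^4) := by rw [Real.log_pow]; norm_num
    rw [this]
    apply Real.log_le_log hpos2
    have : (n:ℝ) * Y ≤ (Y:ℝ)^2 * Y := mul_le_mul_of_nonneg_right hn2r (by positivity)
    nlinarith [pow_pos (show (0:ℝ) < Y by linarith) 3]
  have h5 := pi_log_le Y hY
  rw [← hq] at h5
  have h6 : ((r * q : ℕ) : ℝ) * Real.log ((n:ℝ) * Y + 1) ≤ 20 * r * Y := by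
    push_cast
    calc (r:ℝ) * q * Real.log ((n:ℝ) * Y + 1) ≤ (r:ℝ) * q * (4 * Real.log Y) :=
          mul_le_mul_of_nonneg_left h4 (by positivity)
      _ = (r:ℝ) * 4 * (q * Real.log Y) := by ring
      _ ≤ (r:ℝ) * 4 * (5 * Y) := mul_le_mul_of_nonneg_left h5 (by positivity)
      _ = 20 * r * Y := by ring
  have h7 : Real.log Y ≤ Y := by
    have := Real.log_le_sub_one_of_pos (show (0:ℝ) < (Y:ℝ) by linarith)
    linarith
  have h8 : (n:ℝ) = 40 * r * Y := by rw [hn]; push_cast; ring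
  have h9 := Real.log_two_gt_d9
  have hrr : (1:ℝ) ≤ r := by exact_mod_cast hr
  have h10 : (n:ℝ) * Real.log 2 ≥ (40 * r * Y) * 0.69 := by
    rw [h8]
    apply mul_le_mul_of_nonneg_left _ (by positivity)
    linarith
  have h11 : (r:ℝ) * Y ≥ Y := by nlinarith
  nlinarith

end Pool.Agent.W276.Pig
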