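import Mathlib
import Pool.Agent.W276.Pig

set_option autoImplicit false

/-!
From almost all even numbers to all numbers: every large integer is a sum of at most five primes
of the same order of magnitude (given that almost all even numbers have many representations as
sums of two primes).
-/

namespace Pool.Agent.W276.Gold

open Finset Pool.Agent.W276.Pig

/-- the number of ordered representations of `n` as a sum of two primes -/
def rep (n : ℕ) : ℕ := ((antidiagonal n).filter (fun q : ℕ × ℕ => q.1.Prime ∧ q.2.Prime)).card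

/-- the representations with a small summand -/
def small (K n : ℕ) : Finset (ℕ × ℕ) :=
  (antidiagonal n).filter (fun q : ℕ × ℕ => (q.1.Prime ∧ q.2.Prime) ∧ (q.1 < K ∨ q.2 < K))

lemma sum_small (K N : ℕ) (B : Finset ℕ) (hB : ∀ m ∈ B, 2 * m ≤ N) :
    ∑ m ∈ B, (small K (2*m)).card ≤
      2 * (((Finset.range (K+1)).filter Nat.Prime).card * ((Finset.range (N+1)).filter Nat.Prime).card) := by
  classical
  set A1 := ((Finset.range (K+1)).filter Nat.Prime) ×ˢ ((Finset.range (N+1)).filter Nat.Prime) with hA1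
  set A2 := ((Finset.range (N+1)).filter Nat.Prime) ×ˢ ((Finset.range (K+1)).filter Nat.Prime) with hA2
  have hdisj : (B : Set ℕ).PairwiseDisjoint (fun m => small K (2*m)) := by
    intro a _ b _ hab
    rw [Function.onFun, Finset.disjoint_left]
    intro q hq hq'
    have h1 := Finset.HasAntidiagonal.mem_antidiagonal.1 (Finset.mem_filter.1 hq).1
    have h2 := Finset.HasAntidiagonal.mem_antidiagonal.1 (Finset.mem_filter.1 hq').1
    apply hab
    omega
  rw [← Finset.card_biUnion hdisj]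
  have hsub : B.biUnion (fun m => small K (2*m)) ⊆ A1 ∪ A2 := by
    intro q hq
    obtain ⟨m, hm, hq⟩ := Finset.mem_biUnion.1 hq
    have h1 := Finset.HasAntidiagonal.mem_antidiagonal.1 (Finset.mem_filter.1 hq).1
    obtain ⟨⟨h2, h3⟩, h4⟩ := (Finset.mem_filter.1 hq).2
    have h5 := hB m hm
    simp only [hA1, hA2, Finset.mem_union, Finset.mem_product, Finset.mem_filter, Finset.mem_range]
    rcases h4 with h4 | h4
    · left; exact ⟨⟨by omega, h2⟩, ⟨by omega, h3⟩⟩
    · right; exact ⟨⟨by omega, h2⟩, ⟨by omega, h3⟩⟩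
  refine (Finset.card_le_card hsub).trans ((Finset.card_union_le _ _).trans ?_)
  rw [hA1, hA2, Finset.card_product, Finset.card_product]
  have := Nat.mul_comm (((Finset.range (N+1)).filter Nat.Prime).card) (((Finset.range (K+1)).filter Nat.Prime).card)
  omega

lemma nice_of (K n : ℕ) (h : (small K n).card < rep n) :
    ∃ p q : ℕ, p.Prime ∧ q.Prime ∧ K ≤ p ∧ K ≤ q ∧ p + q = n := by
  classical
  have hsub : small K n ⊆ (antidiagonal n).filter (fun q : ℕ × ℕ => q.1.Prime ∧ q.2.Prime) := by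
    intro q hq
    have h1 := (Finset.mem_filter.1 hq)
    exact Finset.mem_filter.2 ⟨h1.1, h1.2.1⟩
  obtain ⟨q, hq, hq'⟩ := Finset.exists_mem_notMem_of_card_lt_card h
  have h1 := Finset.mem_filter.1 hq
  have h2 : ¬ (q.1 < K ∨ q.2 < K) := by
    intro h
    exact hq' (Finset.mem_filter.2 ⟨h1.1, h1.2, h⟩)
  rw [not_or] at h2
  exact ⟨q.1, q.2, h1.2.1, h1.2.2, by omega, by omega, Finset.HasAntidiagonal.mem_antidiagonal.1 h1.1⟩

/-- the hypothesis: almost all even numbers have many representations -/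
def Many : Prop := ∃ N₀ : ℕ, ∀ N : ℕ, N₀ ≤ N → ∃ S : Finset ℕ, S ⊆ Finset.Icc 1 (N/2) ∧
  (S.card : ℝ) * Real.log N ≤ N / 2 ∧
  ∀ m ∈ Finset.Icc 1 (N/2), m ∉ S → (2*m:ℝ) / (2 * Real.log (2*m) ^ 2) ≤ rep (2*m)

lemma even_case (hM : Many) : ∃ e0 : ℕ, ∀ e : ℕ, e0 ≤ e →
    ∃ p1 p2 p3 p4 : ℕ, p1.Prime ∧ p2.Prime ∧ p3.Prime ∧ p4.Prime ∧
      (4*e/3)/40000 ≤ p1 ∧ (4*e/3)/40000 ≤ p2 ∧ (4*e/3)/40000 ≤ p3 ∧ (4*e/3)/40000 ≤ p4 ∧
      p1 + p2 + (p3 + p4) = 2 * e := by
  classical
  obtain ⟨N0, hN0⟩ := hM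
  refine ⟨N0 + 10^30, ?_⟩
  intro e he
  set N := 4*e/3 with hN
  set K := N/40000 with hK
  have heN : 3 * N ≤ 4 * e := by omega
  have heN' : 4 * e < 3 * N + 3 := by omega
  obtain ⟨S, hS, hSc, hgood⟩ := hN0 N (by omega)
  have hNbig : 10^30 ≤ N := by omega
  have hNr : (10:ℝ)^30 ≤ N := by exact_mod_cast hNbig
  have hNpos : (0:ℝ) < N := by linarith [show (0:ℝ) < 10^30 by norm_num]
  have hlogN : 50 ≤ Real.log N := by
    have h1 : Real.log ((10:ℝ)^30) ≤ Real.log N := Real.log_le_log (by positivity) hNr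
    have h2 : Real.log ((8:ℝ)^30) ≤ Real.log ((10:ℝ)^30) :=
      Real.log_le_log (by positivity) (by norm_num)
    rw [show (8:ℝ)^30 = 2^90 by norm_num, Real.log_pow] at h2
    have h3 := Real.log_two_gt_d9
    push_cast at h2
    linarith
  have hKle : (K:ℝ) ≤ N/40000 := by
    have : 40000 * K ≤ N := by omega
    have : (40000:ℝ) * K ≤ N := by exact_mod_cast this
    linarith
  have hKge : Real.sqrt N ≤ K := by
    have h1 : N ≤ 40000 * (K + 1) := by omega
    have h2 : (N:ℝ) ≤ 40000 * (K + 1) := by exact_mod_cast h1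
    have h3 := Real.mul_self_sqrt hNpos.le
    have h4 : (10:ℝ)^15 ≤ Real.sqrt N := by
      apply Real.le_sqrt_of_sq_le
      rw [← pow_mul]
      exact hNr
    have h5 : (10:ℝ)^15 * Real.sqrt N ≤ Real.sqrt N * Real.sqrt N :=
      mul_le_mul_of_nonneg_right h4 (Real.sqrt_nonneg _)
    norm_num at h4 h5
    linarith
  have hKpos : (0:ℝ) < K := lt_of_lt_of_le (Real.sqrt_pos.2 hNpos) hKge
  have hlogK : Real.log N / 2 ≤ Real.log K := by
    rw [← Real.log_sqrt hNpos.le]
    exact Real.log_le_log (Real.sqrt_pos.2 hNpos) hKge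
  have hpiK := pi_log_le K (by omega)
  have hpiN := pi_log_le N (by omega)
  set πK := (((Finset.range (K+1)).filter Nat.Prime).card : ℝ) with hπK
  set πN := (((Finset.range (N+1)).filter Nat.Prime).card : ℝ) with hπN
  have hπK0 : 0 ≤ πK := Nat.cast_nonneg _
  have hπN0 : 0 ≤ πN := Nat.cast_nonneg _
  set L := Real.log N with hL
  have hL0 : 0 < L := by linarith
  -- the second bad set
  set B2 := (Finset.Icc 1 (N/2)).filter (fun m => N < 4 * m ∧ (N:ℝ)/(4 * L^2) ≤ ((small K (2*m)).card : ℝ)) with hB2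
  have hB2c : (B2.card : ℝ) ≤ N / 100 := by
    have h1 := sum_small K N B2 (by
      intro m hm
      have := (Finset.mem_Icc.1 (Finset.mem_filter.1 hm).1).2
      omega)
    have h2 : (B2.card : ℝ) * ((N:ℝ)/(4 * L^2)) ≤ ∑ m ∈ B2, ((small K (2*m)).card : ℝ) := by
      rw [← nsmul_eq_mul]
      apply Finset.card_nsmul_le_sum
      intro m hm
      exact (Finset.mem_filter.1 hm).2.2
    have h3 : ∑ m ∈ B2, ((small K (2*m)).card : ℝ) ≤ 2 * (πK * πN) := by
      rw [hπK, hπN]
      exact_mod_cast h1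
    have h4 : (πK * (L/2)) * (πN * L) ≤ (5 * K) * (5 * N) := by
      apply mul_le_mul _ hpiN (by positivity) (by positivity)
      refine le_trans ?_ hpiK
      exact mul_le_mul_of_nonneg_left hlogK hπK0
    have h5 : (B2.card : ℝ) * ((N:ℝ)/(4 * L^2)) ≤ 2 * (πK * πN) := h2.trans h3
    have h6 : (B2.card : ℝ) * N ≤ 8 * (πK * πN * L^2) := by
      have h7 := mul_le_mul_of_nonneg_right h5 (show 0 ≤ 4 * L^2 by positivity)
      have h8 : (B2.card : ℝ) * ((N:ℝ)/(4 * L^2)) * (4 * L^2) = (B2.card : ℝ) * N := by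
        field_simp
      rw [h8] at h7
      linarith
    have h7 : (B2.card : ℝ) * N ≤ 400 * K * N := by nlinarith
    have h8 : (B2.card : ℝ) ≤ 400 * K := le_of_mul_le_mul_right h7 hNpos
    linarith
  have hSc' : (S.card : ℝ) ≤ N / 100 := by
    have : (S.card : ℝ) * 50 ≤ (S.card : ℝ) * L := mul_le_mul_of_nonneg_left hlogN (Nat.cast_nonneg _)
    linarith
  have hnice : ∀ m ∈ Finset.Icc 1 (N/2), N < 4 * m → m ∉ S → m ∉ B2 →
      ∃ p q : ℕ, p.Prime ∧ q.Prime ∧ K ≤ p ∧ K ≤ q ∧ p + q = 2 * m := by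
    intro m hm hm4 hmS hmB
    apply nice_of
    have h1 := hgood m hm hmS
    have h2 : ¬ ((N:ℝ)/(4 * L^2) ≤ ((small K (2*m)).card : ℝ)) := by
      intro h
      exact hmB (Finset.mem_filter.2 ⟨hm, hm4, h⟩)
    rw [not_le] at h2
    have hm1 := (Finset.mem_Icc.1 hm).1
    have hm2 := (Finset.mem_Icc.1 hm).2
    have hmr : (1:ℝ) ≤ m := by exact_mod_cast hm1
    have h2m : (2 * m : ℝ) ≤ N := by
      have : 2 * m ≤ N := by omega
      exact_mod_cast this
    have h4m : (N:ℝ) ≤ 4 * m := by exact_mod_cast hm4.le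
    have h3 : (N:ℝ)/(4 * L^2) ≤ (2*m:ℝ) / (2 * Real.log (2*m) ^ 2) := by
      have hlog0 : 0 < Real.log (2*m) := Real.log_pos (by linarith)
      have hlogle : Real.log (2*m) ≤ L := Real.log_le_log (by linarith) h2m
      have hsq : Real.log (2*m)^2 ≤ L^2 := by
        apply pow_le_pow_left₀ hlog0.le hlogle
      rw [div_le_div_iff₀ (by positivity) (by positivity)]
      have h5 : (N:ℝ) * (2 * Real.log (2*m)^2) ≤ (4 * m) * (2 * L^2) := by
        apply mul_le_mul h4m (by linarith) (by positivity) (by positivity)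
      linarith
    have h6 : ((small K (2*m)).card : ℝ) < (rep (2*m) : ℝ) := lt_of_lt_of_le (h2.trans_le h3) h1
    exact_mod_cast h6
  -- choose m
  set J := Finset.Ioo (N/4+1) (N/2) with hJ
  have hex : ∃ m ∈ J, (m ∉ S ∪ B2) ∧ (e - m ∉ S ∪ B2) := by
    by_contra hcon
    push Not at hcon
    have hsub : J ⊆ (S ∪ B2) ∪ (J.filter (fun m => e - m ∈ S ∪ B2)) := by
      intro m hm
      by_cases h : m ∈ S ∪ B2
      · exact Finset.mem_union_left _ h
      · exact Finset.mem_union_right _ (Finset.mem_filter.2 ⟨hm, hcon m hm h⟩)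
    have h1 := (Finset.card_le_card hsub).trans (Finset.card_union_le _ _)
    have h2 : (J.filter (fun m => e - m ∈ S ∪ B2)).card ≤ (S ∪ B2).card := by
      apply Finset.card_le_card_of_injOn (fun m => e - m)
      · intro m hm
        exact (Finset.mem_filter.1 hm).2
      · intro a ha b hb hab
        have ha1 := Finset.mem_Ioo.1 (Finset.mem_filter.1 ha).1
        have hb1 := Finset.mem_Ioo.1 (Finset.mem_filter.1 hb).1
        simp only at hab
        omega
    have h3 := Finset.card_union_le S B2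
    have h4 : J.card ≤ 2 * (S.card + B2.card) := by omega
    have h5 : (J.card : ℝ) ≤ 2 * ((S.card:ℝ) + B2.card) := by exact_mod_cast h4
    have h6 : J.card = N/2 - (N/4+1) - 1 := by rw [hJ, Nat.card_Ioo]
    have h7 : N ≤ 4 * (J.card + 4) := by omega
    have h8 : (N:ℝ) ≤ 4 * (J.card + 4) := by exact_mod_cast h7
    have h9 : (1000:ℝ) ≤ N := by
      have : 1000 ≤ N := le_trans (by norm_num) hNbig
      exact_mod_cast this
    linarith
  obtain ⟨m, hmJ, hm1, hm2⟩ := hex
  have hmJ' := Finset.mem_Ioo.1 hmJ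
  rw [Finset.mem_union, not_or] at hm1 hm2
  obtain ⟨p1, p2, a1, a2, a3, a4, a5⟩ := hnice m (Finset.mem_Icc.2 ⟨by omega, by omega⟩) (by omega) hm1.1 hm1.2
  obtain ⟨p3, p4, b1, b2, b3, b4, b5⟩ := hnice (e-m) (Finset.mem_Icc.2 ⟨by omega, by omega⟩) (by omega) hm2.1 hm2.2
  exact ⟨p1, p2, p3, p4, a1, a2, b1, b2, a3, a4, b3, b4, by omega⟩

/-- every large integer is a sum of at most five primes of the same order of magnitude -/
theorem five_primes (hM : Many) : ∃ D0 : ℕ, ∀ d : ℕ, D0 ≤ d →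
    ∃ L : List ℕ, (∀ q ∈ L, q.Prime ∧ (d:ℝ)/100000 ≤ q ∧ q ≤ d) ∧ L.sum = d := by
  obtain ⟨e0, h0⟩ := even_case hM
  refine ⟨4 * e0 + 10^12, ?_⟩
  intro d hd
  have hdr : ∀ q : ℕ, d ≤ 100000 * q → (d:ℝ)/100000 ≤ q := by
    intro q hq
    have : (d:ℝ) ≤ 100000 * q := by exact_mod_cast hq
    linarith
  rcases Nat.even_or_odd d with ⟨e, he⟩ | ⟨e, he⟩
  · obtain ⟨p1, p2, p3, p4, a1, a2, a3, a4, b1, b2, b3, b4, h⟩ := h0 e (by omega)
    refine ⟨[p1, p2, p3, p4], ?_, by simp; omega⟩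
    intro q hq
    simp only [List.mem_cons, List.not_mem_nil, or_false] at hq
    rcases hq with rfl | rfl | rfl | rfl
    · exact ⟨a1, hdr _ (by omega), by omega⟩
    · exact ⟨a2, hdr _ (by omega), by omega⟩
    · exact ⟨a3, hdr _ (by omega), by omega⟩
    · exact ⟨a4, hdr _ (by omega), by omega⟩
  · obtain ⟨r, hr, hr1, hr2⟩ := Nat.exists_prime_lt_and_le_two_mul (d/16) (by omega)
    have hrodd : Odd r := hr.odd_of_ne_two (by omega)
    obtain ⟨s, hs⟩ := hrodd
    obtain ⟨p1, p2, p3, p4, a1, a2, a3, a4, b1, b2, b3, b4, h⟩ := h0 (e - s) (by omega)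
    refine ⟨[r, p1, p2, p3, p4], ?_, by simp; omega⟩
    intro q hq
    simp only [List.mem_cons, List.not_mem_nil, or_false] at hq
    rcases hq with rfl | rfl | rfl | rfl | rfl
    · exact ⟨hr, hdr _ (by omega), by omega⟩
    · exact ⟨a1, hdr _ (by omega), by omega⟩
    · exact ⟨a2, hdr _ (by omega), by omega⟩
    · exact ⟨a3, hdr _ (by omega), by omega⟩
    · exact ⟨a4, hdr _ (by omega), by omega⟩

end Pool.Agent.W276.Gold
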