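import Pool.Agent.W93.GB4
import Pool.Agent.W276.Gold

set_option autoImplicit false

/-!
Almost all even numbers have many representations as sums of two primes.
-/

namespace Pool.Agent.W276.Link

open Finset Pool.Agent.W276.Gold

lemma energy_le (x : ℕ) : Pool.Agent.H560R3.GB.energy 1 x (fun m => 2 * m) ≤ x := by
  classical
  unfold Pool.Agent.H560R3.GB.energy
  have h : (((Fintype.piFinset fun _ : Fin 1 => Icc 1 x) ×ˢ
      (Fintype.piFinset fun _ : Fin 1 => Icc 1 x)).filter
      (fun q => ∑ i, (fun m => 2 * m) (q.1 i) = ∑ i, (fun m => 2 * m) (q.2 i))).card ≤ (Icc 1 x).card := by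
    apply Finset.card_le_card_of_injOn (fun q => q.1 0)
    · intro q hq
      have h1 := (Finset.mem_product.1 (Finset.mem_filter.1 hq).1).1
      exact Fintype.mem_piFinset.1 h1 0
    · intro q hq q' hq' h
      have h1 := (Finset.mem_filter.1 hq).2
      have h2 := (Finset.mem_filter.1 hq').2
      simp only [Fin.sum_univ_one] at h1 h2
      simp only at h
      have e1 : q.1 = q'.1 := by
        funext i
        have : i = 0 := Subsingleton.elim _ _
        rw [this]; exact h
      have e2 : q.2 = q'.2 := by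
        funext i
        have : i = 0 := Subsingleton.elim _ _
        rw [this]
        omega
      exact Prod.ext e1 e2
  simpa using h

theorem many : Many := by
  classical
  obtain ⟨N0, hN0⟩ := Pool.Agent.W93.GB.fam 1 1 1 1 le_rfl (1/2) (by norm_num)
  refine ⟨N0 + 30, ?_⟩
  intro N hN
  set x := N/2 with hx
  set S := (Finset.Icc 1 x).filter (fun m => ¬ Pool.Agent.W93.GB.Good (1/2) (2*m)) with hS
  have hNr : (30:ℝ) ≤ N := by exact_mod_cast (by omega : 30 ≤ N)
  have hNpos : (0:ℝ) < N := by linarith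
  have hlog : 3 ≤ Real.log N := by
    have h1 : Real.log ((2:ℝ)^(24/5 : ℝ)) ≤ Real.log N := by
      apply Real.log_le_log (by positivity)
      have h2 : ((2:ℝ)^(24/5 : ℝ)) ≤ 30 := by
        have h3 : ((2:ℝ)^(24/5 : ℝ))^5 ≤ 30^5 := by
          rw [← Real.rpow_natCast, ← Real.rpow_mul (by norm_num)]
          norm_num
        exact le_of_pow_le_pow_left₀ (by norm_num) (by norm_num) h3
      linarith
    rw [Real.log_rpow (by norm_num)] at h1
    have h3 := Real.log_two_gt_d9
    linarith
  refine ⟨S, Finset.filter_subset _ _, ?_, ?_⟩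
  · have h1 := hN0 N (by omega) x (fun m => 2 * m) (by
      intro m hm
      have := Finset.mem_Icc.1 hm
      exact ⟨by omega, Dvd.intro m rfl⟩) (by
      have h2 := energy_le x
      have h3 : (Pool.Agent.H560R3.GB.energy 1 x (fun m => 2 * m) : ℝ) ≤ x := by exact_mod_cast h2
      have h4 : (N:ℝ) ≤ 3 * x := by
        have : N ≤ 3 * x := by omega
        exact_mod_cast this
      have hx0 : (0:ℝ) ≤ x := Nat.cast_nonneg _
      rw [pow_one]
      calc (Pool.Agent.H560R3.GB.energy 1 x (fun m => 2 * m) : ℝ) * N ≤ x * (3 * x) := by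
            apply mul_le_mul h3 h4 hNpos.le hx0
        _ = 3 * (x:ℝ)^(2*1) := by ring
        _ ≤ _ := mul_le_mul_of_nonneg_right hlog (by positivity)) S (Finset.filter_subset _ _) (by
      intro m hm
      exact (Finset.mem_filter.1 hm).2)
    rw [pow_one, le_div_iff₀ (by linarith)] at h1
    refine h1.trans ?_
    have : 2 * x ≤ N := by omega
    have : (2:ℝ) * x ≤ N := by exact_mod_cast this
    linarith
  · intro m hm hmS
    have hgood : Pool.Agent.W93.GB.Good (1/2) (2*m) := by
      by_contra h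
      exact hmS (Finset.mem_filter.2 ⟨hm, h⟩)
    have h1 := (abs_le.1 hgood.1).1
    have h2 := Pool.Agent.W93.GB.one_le_sing (2*m)
    have hm1 := (Finset.mem_Icc.1 hm).1
    have hr : (rep (2*m) : ℝ) = (Pool.Agent.H560R3.GB.g (2*m) : ℝ) := rfl
    rw [hr]
    have h3 : ((2*m : ℕ) : ℝ) / Real.log ((2*m : ℕ):ℝ)^2 ≤ Pool.Agent.H560R3.GB.HL (2*m) := by
      unfold Pool.Agent.H560R3.GB.HL
      have : (0:ℝ) ≤ ((2*m : ℕ) : ℝ) / Real.log ((2*m : ℕ):ℝ)^2 := by positivity
      nlinarith
    have h4 : (2*m:ℝ) / (2 * Real.log (2*m) ^ 2) = (1/2) * (((2*m : ℕ) : ℝ) / Real.log ((2*m : ℕ):ℝ)^2) := by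
      push_cast
      rw [mul_comm (2:ℝ) (Real.log (2 * (m:ℝ)) ^ 2), ← div_div]
      ring
    rw [h4]
    linarith

end Pool.Agent.W276.Link
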