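import Mathlib

set_option autoImplicit false

/-!
A modular intersection theorem for words: if the Hamming distance of any two distinct words of a
family of words of length `2 p - 1` over eight letters is not divisible by the prime `p`, then the
family has at most `32 ^ (p - 1)` members.
-/

namespace Pool.Agent.W276.FW

open Finset

variable {p : ℕ} {M : ℕ}

/-- the monomial attached to a set of positions and a word -/
def mon (p : ℕ) {M : ℕ} (I : Finset (Fin M)) (w : Fin M → Fin 8) : (Fin M → Fin 8) → ZMod p :=
  fun x => ∏ i ∈ I, if x i = w i then 1 else 0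

lemma mon_mul (I : Finset (Fin M)) (w : Fin M → Fin 8) (i : Fin M) :
    mon p I w * mon p {i} w = mon p (insert i I) w := by
  classical
  funext x
  simp only [mon, Pi.mul_apply, Finset.prod_singleton]
  by_cases hi : i ∈ I
  · rw [Finset.insert_eq_of_mem hi]
    by_cases hx : x i = w i
    · rw [if_pos hx, mul_one]
    · rw [if_neg hx, mul_zero]
      exact (Finset.prod_eq_zero hi (if_neg hx)).symm
  · rw [Finset.prod_insert hi, mul_comm]

/-- the span of the monomials with at most `n` positions -/
def V (p : ℕ) {M : ℕ} (w : Fin M → Fin 8) (n : ℕ) : Submodule (ZMod p) ((Fin M → Fin 8) → ZMod p) :=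
  Submodule.span (ZMod p) {f | ∃ I : Finset (Fin M), I.card ≤ n ∧ f = mon p I w}

lemma V_mono {w : Fin M → Fin 8} {m n : ℕ} (h : m ≤ n) : V p w m ≤ V p w n := by
  apply Submodule.span_mono
  rintro f ⟨I, hI, rfl⟩
  exact ⟨I, hI.trans h, rfl⟩

lemma mul_mon_mem {w : Fin M → Fin 8} {n : ℕ} {f : (Fin M → Fin 8) → ZMod p} (hf : f ∈ V p w n)
    (i : Fin M) : f * mon p {i} w ∈ V p w (n+1) := by
  classical
  unfold V at hf
  induction hf using Submodule.span_induction with
  | mem x hx =>
    obtain ⟨I, hI, rfl⟩ := hx
    rw [mon_mul]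
    apply Submodule.subset_span
    exact ⟨insert i I, (Finset.card_insert_le _ _).trans (by omega), rfl⟩
  | zero => rw [zero_mul]; exact Submodule.zero_mem _
  | add x y _ _ hx hy => rw [add_mul]; exact Submodule.add_mem _ hx hy
  | smul a x _ hx => rw [smul_mul_assoc]; exact Submodule.smul_mem _ _ hx

/-- the affine function `M - l - #{i : x i = w i}` -/
def aff (p : ℕ) {M : ℕ} (w : Fin M → Fin 8) (l : ℕ) : (Fin M → Fin 8) → ZMod p :=
  fun x => ((hammingDist w x : ℕ) : ZMod p) - (l : ZMod p)

lemma aff_eq (w : Fin M → Fin 8) (l : ℕ) :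
    aff p w l = ((M : ZMod p) - (l : ZMod p)) • (1 : (Fin M → Fin 8) → ZMod p) -
      ∑ i : Fin M, mon p {i} w := by
  classical
  funext x
  simp only [aff, Pi.sub_apply, Pi.smul_apply, Pi.one_apply, Finset.sum_apply, mon,
    Finset.prod_singleton, smul_eq_mul, mul_one]
  have h1 : hammingDist w x + (Finset.univ.filter (fun i => x i = w i)).card = M := by
    unfold hammingDist
    have h2 : (Finset.univ.filter (fun i => w i ≠ x i)) =
        (Finset.univ.filter (fun i => ¬ (x i = w i))) := by
      apply Finset.filter_congr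
      intro i _
      exact ne_comm
    rw [h2, add_comm, Finset.card_filter_add_card_filter_not, Finset.card_univ, Fintype.card_fin]
  have h3 : (∑ i : Fin M, (if x i = w i then (1 : ZMod p) else 0)) =
      (((Finset.univ.filter (fun i => x i = w i)).card : ℕ) : ZMod p) := by
    rw [Finset.sum_boole]
  rw [h3]
  have h4 : ((hammingDist w x : ℕ) : ZMod p) +
      (((Finset.univ.filter (fun i => x i = w i)).card : ℕ) : ZMod p) = (M : ZMod p) := by
    rw [← Nat.cast_add, h1]
  rw [← h4]
  ring

lemma prod_aff_mem (w : Fin M → Fin 8) (L : Finset ℕ) :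
    (∏ l ∈ L, aff p w l) ∈ V p w L.card := by
  classical
  induction L using Finset.induction_on with
  | empty =>
    rw [Finset.prod_empty, Finset.card_empty]
    apply Submodule.subset_span
    refine ⟨∅, by simp, ?_⟩
    funext x
    simp [mon]
  | insert a L ha ih =>
    rw [Finset.prod_insert ha, Finset.card_insert_of_notMem ha, aff_eq, sub_mul, Finset.sum_mul]
    apply Submodule.sub_mem
    · rw [smul_mul_assoc, one_mul]
      exact Submodule.smul_mem _ _ (V_mono (by omega) ih)
    · apply Submodule.sum_mem
      intro i _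
      rw [mul_comm]
      exact mul_mon_mem ih i

/-- normal forms of the monomials -/
def idx (M n : ℕ) : Finset ((_ : Finset (Fin M)) × (Fin M → Fin 8)) :=
  ((Finset.univ : Finset (Finset (Fin M))).filter (fun I => I.card ≤ n)).sigma
    (fun I => Fintype.piFinset (fun i => if i ∈ I then (Finset.univ : Finset (Fin 8)) else {0}))

lemma card_idx (m : ℕ) : (idx (2*m+1) m).card ≤ 32 ^ m := by
  classical
  unfold idx
  rw [Finset.card_sigma]
  have h1 : ∀ I ∈ ((Finset.univ : Finset (Finset (Fin (2*m+1)))).filter (fun I => I.card ≤ m)),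
      (Fintype.piFinset (fun i => if i ∈ I then (Finset.univ : Finset (Fin 8)) else {0})).card
        ≤ 8 ^ m := by
    intro I hI
    rw [Fintype.card_piFinset]
    have h2 : ∀ i : Fin (2*m+1), (if i ∈ I then (Finset.univ : Finset (Fin 8)) else {0}).card =
        if i ∈ I then 8 else 1 := by
      intro i
      split_ifs <;> simp
    rw [Finset.prod_congr rfl (fun i _ => h2 i), Finset.prod_ite_mem, Finset.univ_inter,
      Finset.prod_const]
    exact Nat.pow_le_pow_right (by norm_num) (Finset.mem_filter.1 hI).2
  have h3 : ((Finset.univ : Finset (Finset (Fin (2*m+1)))).filter (fun I => I.card ≤ m)).card =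
      4 ^ m := by
    rw [← Nat.sum_range_choose_halfway m]
    have h4 : ((Finset.univ : Finset (Finset (Fin (2*m+1)))).filter (fun I => I.card ≤ m)) =
        (Finset.range (m+1)).biUnion (fun j => Finset.powersetCard j Finset.univ) := by
      ext I
      simp only [Finset.mem_filter, Finset.mem_univ, true_and, Finset.mem_biUnion,
        Finset.mem_range, Finset.mem_powersetCard, Finset.subset_univ]
      constructor
      · intro h; exact ⟨I.card, by omega, rfl⟩
      · rintro ⟨j, hj, rfl⟩; omega
    rw [h4, Finset.card_biUnion]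
    · apply Finset.sum_congr rfl
      intro j _
      rw [Finset.card_powersetCard, Finset.card_univ, Fintype.card_fin]
    · intro i _ j _ hij
      exact Finset.pairwise_disjoint_powersetCard _ hij
  calc _ ≤ ∑ I ∈ ((Finset.univ : Finset (Finset (Fin (2*m+1)))).filter (fun I => I.card ≤ m)),
        8 ^ m := Finset.sum_le_sum h1
    _ = 32 ^ m := by
      rw [Finset.sum_const, h3, smul_eq_mul, ← Nat.mul_pow]

/-- the modular intersection theorem -/
theorem main [hp : Fact p.Prime] {M : ℕ} (hM : M = 2*(p-1)+1) (E : Finset (Fin M → Fin 8))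
    (hE : ∀ w ∈ E, ∀ w' ∈ E, w ≠ w' → ¬ p ∣ hammingDist w w') : E.card ≤ 32 ^ (p-1) := by
  classical
  let G : (Fin M → Fin 8) → ((Fin M → Fin 8) → ZMod p) := fun w => ∏ l ∈ Finset.Icc 1 (p-1), aff p w l
  -- values
  have hval : ∀ w x, G w x = ∏ l ∈ Finset.Icc 1 (p-1), (((hammingDist w x : ℕ) : ZMod p) - (l : ZMod p)) := by
    intro w x
    simp only [G, Finset.prod_apply, aff]
  have hdiag : ∀ w, G w w ≠ 0 := by
    intro w
    rw [hval, hammingDist_self, Finset.prod_ne_zero_iff]
    intro l hl
    rw [Finset.mem_Icc] at hl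
    rw [Nat.cast_zero, zero_sub, neg_ne_zero]
    intro h0
    have := (ZMod.natCast_eq_zero_iff l p).1 h0
    have := Nat.le_of_dvd (by omega) this
    have := hp.out.one_lt
    omega
  have hoff : ∀ w ∈ E, ∀ w' ∈ E, w ≠ w' → G w w' = 0 := by
    intro w hw w' hw' hne
    have hnd := hE w hw w' hw' hne
    rw [hval]
    have hlt : hammingDist w w' % p < p := Nat.mod_lt _ hp.out.pos
    have hne0 : hammingDist w w' % p ≠ 0 := fun h => hnd (Nat.dvd_of_mod_eq_zero h)
    apply Finset.prod_eq_zero (i := hammingDist w w' % p)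
    · rw [Finset.mem_Icc]; omega
    · rw [sub_eq_zero, ZMod.natCast_mod]
  -- independence
  have hind : LinearIndependent (ZMod p) (fun w : {w // w ∈ E} => G w.1) := by
    rw [Fintype.linearIndependent_iff]
    intro c hc w
    have h1 := congrFun hc w.1
    simp only [Finset.sum_apply, Pi.smul_apply, smul_eq_mul, Pi.zero_apply] at h1
    rw [Finset.sum_eq_single w] at h1
    · exact (mul_eq_zero.1 h1).resolve_right (hdiag w.1)
    · intro b _ hb
      rw [hoff b.1 b.2 w.1 w.2 (fun h => hb (Subtype.ext h)), mul_zero]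
    · intro h; exact absurd (Finset.mem_univ w) h
  -- the spanning set
  let Sp : Finset ((Fin M → Fin 8) → ZMod p) := (idx M (p-1)).image (fun q => mon p q.1 q.2)
  have hspan : ∀ w, G w ∈ Submodule.span (ZMod p) (Sp : Set ((Fin M → Fin 8) → ZMod p)) := by
    intro w
    have h1 : G w ∈ V p w (p-1) := by
      have := prod_aff_mem (p := p) w (Finset.Icc 1 (p-1))
      rwa [Nat.card_Icc, Nat.add_sub_cancel] at this
    refine (Submodule.span_le.2 ?_) h1
    rintro f ⟨I, hI, rfl⟩
    apply Submodule.subset_span
    simp only [Sp, Finset.coe_image, Set.mem_image, Finset.mem_coe]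
    refine ⟨⟨I, fun i => if i ∈ I then w i else 0⟩, ?_, ?_⟩
    · unfold idx
      rw [Finset.mem_sigma]
      refine ⟨Finset.mem_filter.2 ⟨Finset.mem_univ _, hI⟩, ?_⟩
      rw [Fintype.mem_piFinset]
      intro i
      by_cases hi : i ∈ I
      · simp [hi]
      · simp [hi]
    · funext x
      simp only [mon]
      apply Finset.prod_congr rfl
      intro i hi
      simp only [if_pos hi]
  have hfin : E.card ≤ Sp.card := by
    have h2 : (Set.range (fun w : {w // w ∈ E} => G w.1)) ⊆
        (Submodule.span (ZMod p) (Sp : Set ((Fin M → Fin 8) → ZMod p)) : Set _) := by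
      rintro f ⟨w, rfl⟩
      exact hspan w.1
    have h3 := linearIndependent_le_span_aux' _ hind (Sp : Set ((Fin M → Fin 8) → ZMod p)) h2
    simpa using h3
  calc E.card ≤ Sp.card := hfin
    _ ≤ (idx M (p-1)).card := Finset.card_image_le
    _ ≤ 32 ^ (p-1) := by subst hM; exact card_idx (p-1)

end Pool.Agent.W276.FW
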