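import Mathlib
import Pool.Agent.W276.Pig

set_option autoImplicit false

namespace Pool.Agent.W276.Grow

open Finset Pool.Agent.W276.Cop Pool.Agent.W276.Pig

/-- the forms: `a - i b` for `i < k`, and `b` for `i ≥ k` -/
def g (k : ℕ) (i : ℕ) (t : ℕ × ℕ) : ℕ := if i < k then t.1 - i * t.2 else t.2

lemma mem_pool {k B : ℕ} {t : ℕ × ℕ} (ht : t ∈ pool k B) :
    k * B < t.1 ∧ t.1 ≤ 2 * (k * B) ∧ 1 ≤ t.2 ∧ t.2 ≤ B ∧ Nat.Coprime t.1 t.2 := by
  simp only [pool, Finset.mem_filter, Finset.mem_product, Finset.mem_Ioc, Finset.mem_Icc] at ht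
  exact ⟨ht.1.1.1, ht.1.1.2, ht.1.2.1, ht.1.2.2, ht.2⟩

lemma lt_of_mem {k B : ℕ} {t : ℕ × ℕ} (ht : t ∈ pool k B) {i : ℕ} (hi : i ≤ k) :
    i * t.2 < t.1 := by
  obtain ⟨h1, h2, h3, h4, h5⟩ := mem_pool ht
  calc i * t.2 ≤ k * B := Nat.mul_le_mul hi h4
    _ < t.1 := h1

lemma g_bound {k B : ℕ} (hk : 1 ≤ k) {t : ℕ × ℕ} (ht : t ∈ pool k B) (i : ℕ) :
    1 ≤ g k i t ∧ g k i t ≤ 2 * (k * B) := by
  obtain ⟨h1, h2, h3, h4, h5⟩ := mem_pool ht
  unfold g
  split_ifs with hi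
  · have := lt_of_mem ht hi.le
    constructor
    · omega
    · omega
  · refine ⟨h3, ?_⟩
    have : B ≤ k * B := Nat.le_mul_of_pos_left B hk
    omega

/-- a relation of size `m` inside the pool -/
structure IsRel (k B : ℕ) (T T' : Finset (ℕ × ℕ)) : Prop where
  sub : T ⊆ pool k B
  sub' : T' ⊆ pool k B
  disj : Disjoint T T'
  card : T.card = T'.card
  prod : ∀ i < k + 1, ∏ t ∈ T, g k i t = ∏ t ∈ T', g k i t

lemma extend {k B h : ℕ} (hk : 1 ≤ k) (hB : 1 ≤ B)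
    (hh : 2 * h = 40 * (k+1) * (2*(k*B))) (hY : 2 * h ≤ (2*(k*B))^2)
    {T T' : Finset (ℕ × ℕ)} (hR : IsRel k B T T') (hbig : 2 * T.card + 2 * h ≤ (pool k B).card) :
    ∃ U U' : Finset (ℕ × ℕ), IsRel k B U U' ∧ T.card + 1 ≤ U.card ∧ U.card ≤ T.card + h := by
  classical
  have hrem : 2 * h ≤ ((pool k B) \ (T ∪ T')).card := by
    have h1 : (T ∪ T').card ≤ T.card + T'.card := Finset.card_union_le _ _
    have h2 : (pool k B).card - (T ∪ T').card ≤ ((pool k B) \ (T ∪ T')).card :=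
      Finset.le_card_sdiff _ _
    have h3 := hR.card
    omega
  obtain ⟨Om, hOm, hOmc⟩ := Finset.exists_subset_card_eq hrem
  have hY2 : 2 ≤ 2 * (k * B) := by
    have : 1 ≤ k * B := Nat.mul_pos hk hB
    omega
  have hnum := numeric (k+1) (2*(k*B)) (2*h) (by omega) hY2 hh hY
  obtain ⟨A, A', hA, hA', hdis, hc, h1, hp⟩ := pigeon (k+1) (2*(k*B)) (g k) Om
    (fun i _ t ht => g_bound hk (Finset.mem_sdiff.1 (hOm ht)).1 i) (by rw [hOmc]; exact hnum)
  have hAOm : ∀ t ∈ Om, t ∉ T ∧ t ∉ T' := by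
    intro t ht
    have := (Finset.mem_sdiff.1 (hOm ht)).2
    rw [Finset.mem_union, not_or] at this
    exact this
  have d1 : Disjoint T A := by
    rw [Finset.disjoint_left]
    intro t ht hta
    exact (hAOm t (hA hta)).1 ht
  have d2 : Disjoint T' A' := by
    rw [Finset.disjoint_left]
    intro t ht hta
    exact (hAOm t (hA' hta)).2 ht
  have d3 : Disjoint T A' := by
    rw [Finset.disjoint_left]
    intro t ht hta
    exact (hAOm t (hA' hta)).1 ht
  have d4 : Disjoint A T' := by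
    rw [Finset.disjoint_left]
    intro t hta ht
    exact (hAOm t (hA hta)).2 ht
  have hle : A.card + A'.card ≤ 2 * h := by
    rw [← Finset.card_union_of_disjoint hdis, ← hOmc]
    exact Finset.card_le_card (Finset.union_subset hA hA')
  refine ⟨T ∪ A, T' ∪ A', ⟨?_, ?_, ?_, ?_, ?_⟩, ?_, ?_⟩
  · exact Finset.union_subset hR.sub (fun t ht => (Finset.mem_sdiff.1 (hOm (hA ht))).1)
  · exact Finset.union_subset hR.sub' (fun t ht => (Finset.mem_sdiff.1 (hOm (hA' ht))).1)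
  · rw [Finset.disjoint_union_left, Finset.disjoint_union_right, Finset.disjoint_union_right]
    exact ⟨⟨hR.disj, d3⟩, ⟨d4, hdis⟩⟩
  · rw [Finset.card_union_of_disjoint d1, Finset.card_union_of_disjoint d2, hR.card, hc]
  · intro i hi
    rw [Finset.prod_union d1, Finset.prod_union d2, hR.prod i hi, hp i hi]
  · rw [Finset.card_union_of_disjoint d1]
    omega
  · rw [Finset.card_union_of_disjoint d1]
    omega

/-- relations of every size up to a bounded gap -/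
lemma grow {k B h D : ℕ} (hk : 1 ≤ k) (hB : 1 ≤ B)
    (hh : 2 * h = 40 * (k+1) * (2*(k*B))) (hY : 2 * h ≤ (2*(k*B))^2)
    (hbig : 2 * D + 2 * h ≤ (pool k B).card) (m : ℕ) (hm : m ≤ D) :
    ∃ U U' : Finset (ℕ × ℕ), IsRel k B U U' ∧ m ≤ U.card ∧ U.card ≤ m + h := by
  induction m with
  | zero =>
    refine ⟨∅, ∅, ⟨by simp, by simp, by simp, rfl, by simp⟩, by simp, by simp⟩
  | succ m ih =>
    obtain ⟨U, U', hR, h1, h2⟩ := ih (by omega)
    by_cases hU : m + 1 ≤ U.card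
    · exact ⟨U, U', hR, hU, by omega⟩
    · have hUm : U.card = m := by omega
      obtain ⟨V, V', hR', h3, h4⟩ := extend hk hB hh hY hR (by omega)
      exact ⟨V, V', hR', by omega, by omega⟩

/-- for every `k ≥ 10` a relation of size between `17600 k^3` and `35200 k^3` -/
theorem exists_rel (k : ℕ) (hk : 10 ≤ k) :
    ∃ T T' : Finset (ℕ × ℕ), IsRel k (400*k) T T' ∧ 17600 * k^3 ≤ T.card ∧
      T.card ≤ 35200 * k^3 := by
  have hB : 1 ≤ 400 * k := by omega
  have hpool := card_pool k (400*k) hB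
  have hpool' : k * (400*k)^2 ≤ 2 * (pool k (400*k)).card + (400*k)^2 := by exact_mod_cast hpool
  obtain ⟨j, rfl⟩ : ∃ j, k = 10 + j := ⟨k - 10, by omega⟩
  set h := 16000 * (10+j+1) * (10+j)^2 with hdef
  have hh : 2 * h = 40 * (10+j+1) * (2*((10+j)*(400*(10+j)))) := by rw [hdef]; ring
  have hY : 2 * h ≤ (2*((10+j)*(400*(10+j))))^2 := by
    rw [hdef]; ring_nf; nlinarith [Nat.zero_le j]
  have hbig : 2 * (17600 * (10+j)^3) + 2 * h ≤ (pool (10+j) (400*(10+j))).card := by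
    rw [hdef]
    ring_nf at hpool' ⊢
    nlinarith [Nat.zero_le j]
  obtain ⟨U, U', hR, h1, h2⟩ := grow (by omega) hB hh hY hbig (17600 * (10+j)^3) le_rfl
  refine ⟨U, U', hR, h1, h2.trans ?_⟩
  rw [hdef]
  ring_nf
  nlinarith [Nat.zero_le j]

end Pool.Agent.W276.Grow
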