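import Mathlib
import Pool.Agent.W276.Grow
import Pool.Agent.W276.FW

set_option autoImplicit false

/-!
Relations of exact prime size, and of every size that is a sum of suitable primes.
-/

namespace Pool.Agent.W276.Exact

open Finset Pool.Agent.W276.Cop Pool.Agent.W276.Pig Pool.Agent.W276.Grow

/-- the pigeonhole step with exact size `p` -/
theorem exact_pigeon (p r Y : ℕ) (hp : p.Prime) (g : ℕ → ℕ × ℕ → ℕ) (Om : Finset (ℕ × ℕ))
    (hcard : 8 * (2*(p-1)+1) ≤ Om.card)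
    (hg : ∀ i < r, ∀ t ∈ Om, 1 ≤ g i t ∧ g i t ≤ Y)
    (hbig : ((2*(p-1)+1) * Y + 1) ^ (r * ((Finset.range (Y+1)).filter Nat.Prime).card) * 32 ^ (p-1)
      < 8 ^ (2*(p-1)+1)) :
    ∃ T T' : Finset (ℕ × ℕ), T ⊆ Om ∧ T' ⊆ Om ∧ Disjoint T T' ∧ T.card = p ∧ T'.card = p ∧
      ∀ i < r, ∏ t ∈ T, g i t = ∏ t ∈ T', g i t := by
  classical
  have : Fact p.Prime := ⟨hp⟩
  set M := 2*(p-1)+1 with hM
  set P := (Finset.range (Y+1)).filter Nat.Prime with hP
  obtain ⟨φ⟩ : Nonempty ((Fin M × Fin 8) ↪ {t // t ∈ Om}) := by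
    apply Function.Embedding.nonempty_of_card_le
    rw [Fintype.card_prod, Fintype.card_fin, Fintype.card_fin, Fintype.card_coe]
    omega
  have hφ : ∀ q, ((φ q : {t // t ∈ Om}) : ℕ × ℕ) ∈ Om := fun q => (φ q).2
  have hinj : ∀ q q', ((φ q : {t // t ∈ Om}) : ℕ × ℕ) = (φ q' : {t // t ∈ Om}) → q = q' :=
    fun q q' h => φ.injective (Subtype.ext h)
  let key : (Fin M → Fin 8) → ((Fin r × {x // x ∈ P}) → ℕ) :=
    fun w q => (∏ i : Fin M, g q.1 (φ (i, w i) : ℕ × ℕ)).factorization q.2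
  let target : Finset ((Fin r × {x // x ∈ P}) → ℕ) :=
    Fintype.piFinset (fun _ => Finset.range (M*Y+1))
  have htc : target.card = (M * Y + 1) ^ (r * P.card) := by
    simp only [target, Finset.card_range, Fintype.card_piFinset,
      Finset.prod_const, Finset.card_univ, Fintype.card_prod, Fintype.card_fin, Fintype.card_coe]
  have hne : ∀ (i : Fin r) (w : Fin M → Fin 8) (m : Fin M), g i (φ (m, w m) : ℕ × ℕ) ≠ 0 := by
    intro i w m
    have := (hg i i.2 _ (hφ (m, w m))).1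
    omega
  have hmaps : ∀ w ∈ (Finset.univ : Finset (Fin M → Fin 8)), key w ∈ target := by
    intro w _
    simp only [key, target, Fintype.mem_piFinset, Finset.mem_range]
    rintro ⟨i, x⟩
    rw [Nat.factorization_prod (fun m _ => hne i w m), Finsupp.finsetSum_apply]
    have h1 : ∑ m : Fin M, (g i (φ (m, w m) : ℕ × ℕ)).factorization x ≤ ∑ m : Fin M, Y := by
      apply Finset.sum_le_sum
      intro m _
      have h2 := Nat.factorization_lt (x : ℕ) (hne i w m)
      have h3 := (hg i i.2 _ (hφ (m, w m))).2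
      omega
    rw [Finset.sum_const, smul_eq_mul, Finset.card_univ, Fintype.card_fin] at h1
    simp only at h1 ⊢
    omega
  obtain ⟨y, _, hy⟩ := Finset.exists_lt_card_fiber_of_mul_lt_card_of_maps_to
    (s := (Finset.univ : Finset (Fin M → Fin 8))) (t := target) (f := key) (n := 32 ^ (p-1)) hmaps
    (by rw [htc, Finset.card_univ, Fintype.card_fun, Fintype.card_fin, Fintype.card_fin]; exact hbig)
  set E := Finset.univ.filter (fun w => key w = y) with hE
  have hex : ∃ w ∈ E, ∃ w' ∈ E, w ≠ w' ∧ p ∣ hammingDist w w' := by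
    by_contra hcon
    push Not at hcon
    have := FW.main (p := p) hM E (fun w hw w' hw' hne => hcon w hw w' hw' hne)
    omega
  obtain ⟨w, hw, w', hw', hww, hdvd⟩ := hex
  have hd : hammingDist w w' = p := by
    have h1 : 0 < hammingDist w w' := hammingDist_pos.2 hww
    have h2 : hammingDist w w' ≤ M := by
      have := hammingDist_le_card_fintype (x := w) (y := w')
      rwa [Fintype.card_fin] at this
    obtain ⟨c, hc⟩ := hdvd
    have hp2 := hp.two_le
    rcases Nat.lt_or_ge c 2 with hc2 | hc2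
    · interval_cases c
      · omega
      · omega
    · have : p * 2 ≤ p * c := Nat.mul_le_mul_left p hc2
      omega
  have hk : key w = key w' := by
    rw [(Finset.mem_filter.1 hw).2, (Finset.mem_filter.1 hw').2]
  set D := Finset.univ.filter (fun m : Fin M => w m ≠ w' m) with hD
  have hDc : D.card = p := hd
  have hprod : ∀ i < r, ∏ m : Fin M, g i (φ (m, w m) : ℕ × ℕ) = ∏ m : Fin M, g i (φ (m, w' m) : ℕ × ℕ) := by
    intro i hi
    have h0 : ∀ v : Fin M → Fin 8, ∏ m : Fin M, g i (φ (m, v m) : ℕ × ℕ) ≠ 0 :=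
      fun v => Finset.prod_ne_zero_iff.2 (fun m _ => hne ⟨i, hi⟩ v m)
    have hs : ∀ v : Fin M → Fin 8, ∀ q, q.Prime → q ∣ ∏ m : Fin M, g i (φ (m, v m) : ℕ × ℕ) →
        q ≤ Y := by
      intro v q hq hqd
      obtain ⟨m, _, hmd⟩ := (Prime.dvd_finsetProd_iff hq.prime _).1 hqd
      exact (Nat.le_of_dvd (hg i hi _ (hφ _)).1 hmd).trans (hg i hi _ (hφ _)).2
    refine eq_of_small (Y := Y) (h0 w) (h0 w') (hs w) (hs w') ?_
    intro q hq
    exact congrFun hk (⟨i, hi⟩, ⟨q, hq⟩)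
  have hinjw : ∀ v : Fin M → Fin 8, Function.Injective (fun m : Fin M => (φ (m, v m) : ℕ × ℕ)) := by
    intro v a b hab
    exact (Prod.mk.inj (hinj _ _ hab)).1
  refine ⟨D.image (fun m => (φ (m, w m) : ℕ × ℕ)), D.image (fun m => (φ (m, w' m) : ℕ × ℕ)),
    ?_, ?_, ?_, ?_, ?_, ?_⟩
  · intro t ht
    obtain ⟨m, _, rfl⟩ := Finset.mem_image.1 ht
    exact hφ _
  · intro t ht
    obtain ⟨m, _, rfl⟩ := Finset.mem_image.1 ht
    exact hφ _
  · rw [Finset.disjoint_left]
    intro t ht ht'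
    obtain ⟨m, hm, rfl⟩ := Finset.mem_image.1 ht
    obtain ⟨m', hm', h⟩ := Finset.mem_image.1 ht'
    have h1 := hinj _ _ h
    have h2 := (Prod.mk.inj h1).1
    subst h2
    exact (Finset.mem_filter.1 hm).2 (Prod.mk.inj h1).2.symm
  · rw [Finset.card_image_of_injective _ (hinjw w), hDc]
  · rw [Finset.card_image_of_injective _ (hinjw w'), hDc]
  · intro i hi
    rw [Finset.prod_image (fun a _ b _ h => hinjw w h), Finset.prod_image (fun a _ b _ h => hinjw w' h)]
    have h1 := hprod i hi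
    rw [← Finset.prod_filter_mul_prod_filter_not Finset.univ (fun m => w m ≠ w' m),
      ← Finset.prod_filter_mul_prod_filter_not Finset.univ (fun m => w m ≠ w' m)
        (f := fun m => g i (φ (m, w' m) : ℕ × ℕ))] at h1
    have h2 : ∏ m ∈ Finset.univ.filter (fun m : Fin M => ¬ (w m ≠ w' m)), g i (φ (m, w m) : ℕ × ℕ) =
        ∏ m ∈ Finset.univ.filter (fun m : Fin M => ¬ (w m ≠ w' m)), g i (φ (m, w' m) : ℕ × ℕ) := by
      apply Finset.prod_congr rfl
      intro m hm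
      have := (Finset.mem_filter.1 hm).2
      push Not at this
      rw [this]
    rw [h2] at h1
    refine Nat.eq_of_mul_eq_mul_right ?_ h1
    apply Finset.prod_pos
    intro m _
    exact (hg i hi _ (hφ _)).1

/-- the numerical condition -/
lemma numeric' (r Y p : ℕ) (hr : 1 ≤ r) (hY : 2 ≤ Y) (hp : 2 ≤ p) (hp1 : 30 * r * Y ≤ p)
    (hp2 : 2 * p ≤ Y^2) :
    ((2*(p-1)+1) * Y + 1) ^ (r * ((Finset.range (Y+1)).filter Nat.Prime).card) * 32 ^ (p-1)
      < 8 ^ (2*(p-1)+1) := by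
  have e1 : (8:ℕ) ^ (2*(p-1)+1) = 8 * 2 ^ (p-1) * 32 ^ (p-1) := by
    rw [pow_succ, pow_mul, mul_assoc, ← mul_pow]
    norm_num
    ring
  rw [e1]
  apply Nat.mul_lt_mul_of_pos_right _ (by positivity)
  by_contra hcon
  push Not at hcon
  set q := ((Finset.range (Y+1)).filter Nat.Prime).card with hq
  set n := 2*(p-1)+1 with hn
  have hnle : n ≤ Y^2 := by omega
  have h1 : ((8:ℝ) * (2:ℝ) ^ (p-1)) ≤ ((n:ℝ) * Y + 1) ^ (r * q) := by exact_mod_cast hcon
  have hpos2 : (0:ℝ) < ((n:ℝ) * Y + 1) := by positivity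
  have h2 := Real.log_le_log (by positivity) h1
  rw [Real.log_pow, Real.log_mul (by norm_num) (by positivity), Real.log_pow] at h2
  have hYr : (2:ℝ) ≤ Y := by exact_mod_cast hY
  have hn2r : (n:ℝ) ≤ (Y:ℝ)^2 := by exact_mod_cast hnle
  have hlogY : 0 < Real.log Y := Real.log_pos (by linarith)
  have h4 : Real.log ((n:ℝ) * Y + 1) ≤ 4 * Real.log Y := by
    have : (4:ℝ) * Real.log Y = Real.log ((Y:ℝ)^4) := by rw [Real.log_pow]; norm_num
    rw [this]
    apply Real.log_le_log hpos2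
    have : (n:ℝ) * Y ≤ (Y:ℝ)^2 * Y := mul_le_mul_of_nonneg_right hn2r (by positivity)
    nlinarith [pow_pos (show (0:ℝ) < Y by linarith) 3]
  have h5 := pi_log_le Y hY
  rw [← hq] at h5
  have h6 : ((r * q : ℕ) : ℝ) * Real.log ((n:ℝ) * Y + 1) ≤ 20 * r * Y := by
    push_cast
    calc (r:ℝ) * q * Real.log ((n:ℝ) * Y + 1) ≤ (r:ℝ) * q * (4 * Real.log Y) :=
          mul_le_mul_of_nonneg_left h4 (by positivity)
      _ = (r:ℝ) * 4 * (q * Real.log Y) := by ring
      _ ≤ (r:ℝ) * 4 * (5 * Y) := mul_le_mul_of_nonneg_left h5 (by positivity)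
      _ = 20 * r * Y := by ring
  have h9 := Real.log_two_gt_d9
  have h10 : (30:ℝ) * r * Y ≤ p := by exact_mod_cast hp1
  have h11 : ((p-1 : ℕ) : ℝ) = (p:ℝ) - 1 := by
    rw [Nat.cast_sub (by omega)]; norm_num
  have h12 : 0 < Real.log 8 := Real.log_pos (by norm_num)
  have h13 : Real.log 8 = 3 * Real.log 2 := by
    rw [show (8:ℝ) = 2^3 by norm_num, Real.log_pow]; norm_num
  rw [h11, h13] at h2
  have h14 : (0:ℝ) ≤ (r:ℝ) * Y := by positivity
  have h15 : (p:ℝ) * Real.log 2 ≥ (30 * r * Y) * 0.69 := by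
    calc (p:ℝ) * Real.log 2 ≥ (p:ℝ) * 0.69 := mul_le_mul_of_nonneg_left (by linarith) (by positivity)
      _ ≥ (30 * r * Y) * 0.69 := mul_le_mul_of_nonneg_right h10 (by norm_num)
  nlinarith

/-- extend a relation by exactly `p` -/
lemma extend_exact {k B p : ℕ} (hk : 1 ≤ k) (hB : 1 ≤ B) (hp : p.Prime)
    (h1 : 30 * (k+1) * (2*(k*B)) ≤ p) (h2 : 2 * p ≤ (2*(k*B))^2)
    {T T' : Finset (ℕ × ℕ)} (hR : IsRel k B T T') (hbig : 2 * T.card + 16 * p ≤ (pool k B).card) :
    ∃ U U' : Finset (ℕ × ℕ), IsRel k B U U' ∧ U.card = T.card + p := by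
  classical
  have hrem : 8 * (2*(p-1)+1) ≤ ((pool k B) \ (T ∪ T')).card := by
    have h1 : (T ∪ T').card ≤ T.card + T'.card := Finset.card_union_le _ _
    have h2 : (pool k B).card - (T ∪ T').card ≤ ((pool k B) \ (T ∪ T')).card :=
      Finset.le_card_sdiff _ _
    have h3 := hR.card
    have h4 := hp.pos
    omega
  have hY2 : 2 ≤ 2 * (k * B) := by
    have : 1 ≤ k * B := Nat.mul_pos hk hB
    omega
  have hnum := numeric' (k+1) (2*(k*B)) p (by omega) hY2 hp.two_le h1 h2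
  obtain ⟨A, A', hA, hA', hdis, hc, hc', hprod⟩ := exact_pigeon p (k+1) (2*(k*B)) hp (g k)
    ((pool k B) \ (T ∪ T')) hrem
    (fun i _ t ht => g_bound hk (Finset.mem_sdiff.1 ht).1 i) hnum
  have hAOm : ∀ t ∈ (pool k B) \ (T ∪ T'), t ∉ T ∧ t ∉ T' := by
    intro t ht
    have := (Finset.mem_sdiff.1 ht).2
    rw [Finset.mem_union, not_or] at this
    exact this
  have d1 : Disjoint T A := by
    rw [Finset.disjoint_left]
    intro t ht hta
    exact (hAOm t (hA hta)).1 ht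
  have d2 : Disjoint T' A' := by
    rw [Finset.disjoint_left]
    intro t ht hta
    exact (hAOm t (hA' hta)).2 ht
  have d3 : Disjoint T A' := by
    rw [Finset.disjoint_left]
    intro t ht hta
    exact (hAOm t (hA' hta)).1 ht
  have d4 : Disjoint A T' := by
    rw [Finset.disjoint_left]
    intro t hta ht
    exact (hAOm t (hA hta)).2 ht
  refine ⟨T ∪ A, T' ∪ A', ⟨?_, ?_, ?_, ?_, ?_⟩, ?_⟩
  · exact Finset.union_subset hR.sub (fun t ht => (Finset.mem_sdiff.1 (hA ht)).1)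
  · exact Finset.union_subset hR.sub' (fun t ht => (Finset.mem_sdiff.1 (hA' ht)).1)
  · rw [Finset.disjoint_union_left, Finset.disjoint_union_right, Finset.disjoint_union_right]
    exact ⟨⟨hR.disj, d3⟩, ⟨d4, hdis⟩⟩
  · rw [Finset.card_union_of_disjoint d1, Finset.card_union_of_disjoint d2, hR.card, hc, hc']
  · intro i hi
    rw [Finset.prod_union d1, Finset.prod_union d2, hR.prod i hi, hprod i hi]
  · rw [Finset.card_union_of_disjoint d1, hc]

/-- relations whose size is a sum of primes of suitable size -/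
lemma exists_of_list {k B Q d : ℕ} (hk : 1 ≤ k) (hB : 1 ≤ B)
    (h2 : 2 * Q ≤ (2*(k*B))^2) (hbig : 2 * d + 16 * Q ≤ (pool k B).card)
    (L : List ℕ) (hL : ∀ p ∈ L, p.Prime ∧ 30 * (k+1) * (2*(k*B)) ≤ p ∧ p ≤ Q)
    (hs : L.sum ≤ d) :
    ∃ U U' : Finset (ℕ × ℕ), IsRel k B U U' ∧ U.card = L.sum := by
  induction L with
  | nil => exact ⟨∅, ∅, ⟨by simp, by simp, by simp, rfl, by simp⟩, by simp⟩
  | cons p L ih =>
    rw [List.sum_cons] at hs
    obtain ⟨U, U', hR, hU⟩ := ih (fun q hq => hL q (List.mem_cons_of_mem _ hq)) (by omega)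
    obtain ⟨hp, h1, hpQ⟩ := hL p List.mem_cons_self
    obtain ⟨W, W', hR', hW⟩ := extend_exact hk hB hp h1 (by omega) hR (by omega)
    exact ⟨W, W', hR', by rw [hW, hU, List.sum_cons]; ring⟩

end Pool.Agent.W276.Exact
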